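import Pool.Agent.Helper60_Tsirelson.Statement

/-!
# Existence of Tsirelson space
-/

set_option autoImplicit false
set_option linter.unusedSectionVars false

namespace Pool.Agent.Helper60.Tsirelson

open Filter Topology

/-- The `ℓ¹` norm on `c₀₀`. -/
noncomputable def l1 (x : ℕ+ →₀ ℝ) : ℝ := ∑ k ∈ x.support, |x k|

theorem l1_eq {x : ℕ+ →₀ ℝ} {S : Finset ℕ+} (h : x.support ⊆ S) : l1 x = ∑ k ∈ S, |x k| := by
  unfold l1
  apply Finset.sum_subset h
  intro k _ hk
  rw [Finsupp.notMem_support_iff.1 hk, abs_zero]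

theorem l1_nonneg (x : ℕ+ →₀ ℝ) : 0 ≤ l1 x := Finset.sum_nonneg fun _ _ => abs_nonneg _

theorem abs_le_l1 (x : ℕ+ →₀ ℝ) (k : ℕ+) : |x k| ≤ l1 x := by
  classical
  rw [l1_eq (S := insert k x.support) (Finset.subset_insert _ _)]
  exact Finset.single_le_sum (f := fun k => |x k|) (fun _ _ => abs_nonneg _)
    (Finset.mem_insert_self k x.support)

theorem sum_l1_le {n : ℕ} {E : Fin n → Finset ℕ+} (hE : Admissible n E) (x : ℕ+ →₀ ℝ) :
    ∑ i, l1 (x.filter (· ∈ E i)) ≤ l1 x := by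
  classical
  have h1 : ∀ i, l1 (x.filter (· ∈ E i)) = ∑ k ∈ x.support, if k ∈ E i then |x k| else 0 := by
    intro i
    rw [l1_eq (S := x.support)]
    · apply Finset.sum_congr rfl
      intro k _
      rw [Finsupp.filter_apply]
      split_ifs <;> simp
    · rw [Finsupp.support_filter]
      exact Finset.filter_subset _ _
  simp_rw [h1]
  rw [Finset.sum_comm]
  unfold l1
  apply Finset.sum_le_sum
  intro k _
  by_cases h : ∃ i, k ∈ E i
  · obtain ⟨i, hi⟩ := h
    rw [Finset.sum_eq_single i]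
    · simp [hi]
    · intro j _ hji
      have hj : k ∉ E j := by
        intro hj
        rcases lt_or_gt_of_ne hji with h | h
        · exact lt_irrefl k (hE.2.2.2 j i h k hj k hi)
        · exact lt_irrefl k (hE.2.2.2 i j h k hi k hj)
      simp [hj]
    · simp
  · push Not at h
    rw [Finset.sum_eq_zero]
    · exact abs_nonneg _
    · intro i _
      simp [h i]

/-- The numbers `½ ∑ P (Eᵢ x)`. -/
def admSums (P : (ℕ+ →₀ ℝ) → ℝ) (x : ℕ+ →₀ ℝ) : Set ℝ :=
  {r : ℝ | ∃ (n : ℕ) (E : Fin n → Finset ℕ+), Admissible n E ∧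
    r = 1 / 2 * ∑ i, P (x.filter (· ∈ E i))}

/-- The set whose least upper bound is taken. -/
def bigSet (P : (ℕ+ →₀ ℝ) → ℝ) (x : ℕ+ →₀ ℝ) : Set ℝ := Set.range (fun k => |x k|) ∪ admSums P x

/-- One step of the iteration. -/
noncomputable def step (P : (ℕ+ →₀ ℝ) → ℝ) (x : ℕ+ →₀ ℝ) : ℝ := sSup (bigSet P x)

/-- The class of functions preserved by `step`. -/
structure Good (P : (ℕ+ →₀ ℝ) → ℝ) : Prop where
  nonneg : ∀ x, 0 ≤ P x
  le_l1 : ∀ x, P x ≤ l1 x
  add_le : ∀ x y, P (x + y) ≤ P x + P y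
  smul_le : ∀ (c : ℝ) x, P (c • x) ≤ |c| * P x

variable {P : (ℕ+ →₀ ℝ) → ℝ}

theorem bigSet_le (hP : Good P) (x : ℕ+ →₀ ℝ) {r : ℝ} (hr : r ∈ bigSet P x) : r ≤ l1 x := by
  rcases hr with ⟨k, rfl⟩ | ⟨n, E, hE, rfl⟩
  · exact abs_le_l1 x k
  · have h1 : ∑ i, P (x.filter (· ∈ E i)) ≤ ∑ i, l1 (x.filter (· ∈ E i)) :=
      Finset.sum_le_sum fun i _ => hP.le_l1 _
    have h2 := sum_l1_le hE x
    have h3 := l1_nonneg x
    linarith

theorem bigSet_bdd (hP : Good P) (x : ℕ+ →₀ ℝ) : BddAbove (bigSet P x) :=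
  ⟨l1 x, fun _ hr => bigSet_le hP x hr⟩

theorem bigSet_nonempty (x : ℕ+ →₀ ℝ) : (bigSet P x).Nonempty := ⟨|x 1|, Or.inl ⟨1, rfl⟩⟩

theorem isLUB_step (hP : Good P) (x : ℕ+ →₀ ℝ) : IsLUB (bigSet P x) (step P x) :=
  isLUB_csSup (bigSet_nonempty x) (bigSet_bdd hP x)

theorem good_step (hP : Good P) : Good (step P) where
  nonneg x := (abs_nonneg (x 1)).trans ((isLUB_step hP x).1 (Or.inl ⟨1, rfl⟩))
  le_l1 x := (isLUB_step hP x).2 fun _ hr => bigSet_le hP x hr
  add_le x y := by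
    apply (isLUB_step hP (x + y)).2
    rintro r (⟨k, rfl⟩ | ⟨n, E, hE, rfl⟩)
    · have h1 := (isLUB_step hP x).1 (Or.inl ⟨k, rfl⟩)
      have h2 := (isLUB_step hP y).1 (Or.inl ⟨k, rfl⟩)
      change |x k + y k| ≤ _
      exact (abs_add_le _ _).trans (add_le_add h1 h2)
    · have h1 := (isLUB_step hP x).1 (Or.inr ⟨n, E, hE, rfl⟩)
      have h2 := (isLUB_step hP y).1 (Or.inr ⟨n, E, hE, rfl⟩)
      refine le_trans ?_ (add_le_add h1 h2)
      rw [← mul_add, ← Finset.sum_add_distrib]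
      apply mul_le_mul_of_nonneg_left _ (by norm_num)
      apply Finset.sum_le_sum
      intro i _
      rw [Finsupp.filter_add]
      exact hP.add_le _ _
  smul_le c x := by
    apply (isLUB_step hP (c • x)).2
    rintro r (⟨k, rfl⟩ | ⟨n, E, hE, rfl⟩)
    · have h1 := (isLUB_step hP x).1 (Or.inl ⟨k, rfl⟩)
      change |c * x k| ≤ _
      rw [abs_mul]
      exact mul_le_mul_of_nonneg_left h1 (abs_nonneg c)
    · have h1 := (isLUB_step hP x).1 (Or.inr ⟨n, E, hE, rfl⟩)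
      refine le_trans ?_ (mul_le_mul_of_nonneg_left h1 (abs_nonneg c))
      have h2 : ∑ i, P ((c • x).filter (· ∈ E i)) ≤ |c| * ∑ i, P (x.filter (· ∈ E i)) := by
        rw [Finset.mul_sum]
        apply Finset.sum_le_sum
        intro i _
        rw [Finsupp.filter_smul]
        exact hP.smul_le _ _
      linarith

theorem step_mono {Q : (ℕ+ →₀ ℝ) → ℝ} (hP : Good P) (hQ : Good Q) (h : ∀ x, P x ≤ Q x)
    (x : ℕ+ →₀ ℝ) : step P x ≤ step Q x := by
  apply (isLUB_step hP x).2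
  rintro r (⟨k, rfl⟩ | ⟨n, E, hE, rfl⟩)
  · exact (isLUB_step hQ x).1 (Or.inl ⟨k, rfl⟩)
  · refine le_trans ?_ ((isLUB_step hQ x).1 (Or.inr ⟨n, E, hE, rfl⟩))
    apply mul_le_mul_of_nonneg_left _ (by norm_num)
    exact Finset.sum_le_sum fun i _ => h _

/-- The iterates. -/
noncomputable def it : ℕ → (ℕ+ →₀ ℝ) → ℝ
  | 0 => fun _ => 0
  | m + 1 => step (it m)

theorem good_it : ∀ m, Good (it m)
  | 0 => ⟨fun _ => le_rfl, fun x => l1_nonneg x, fun _ _ => by simp [it], fun _ _ => by simp [it]⟩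
  | m + 1 => good_step (good_it m)

theorem it_le_succ : ∀ m x, it m x ≤ it (m + 1) x
  | 0, x => (good_it 1).nonneg x
  | m + 1, x => step_mono (good_it m) (good_it (m + 1)) (it_le_succ m) x

theorem it_mono (x : ℕ+ →₀ ℝ) : Monotone fun m => it m x :=
  monotone_nat_of_le_succ fun m => it_le_succ m x

/-- Tsirelson's norm on `c₀₀`. -/
noncomputable def tnorm (x : ℕ+ →₀ ℝ) : ℝ := ⨆ m, it m x

theorem it_bdd (x : ℕ+ →₀ ℝ) : BddAbove (Set.range fun m => it m x) :=
  ⟨l1 x, by rintro _ ⟨m, rfl⟩; exact (good_it m).le_l1 x⟩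

theorem it_le_tnorm (m : ℕ) (x : ℕ+ →₀ ℝ) : it m x ≤ tnorm x := le_ciSup (it_bdd x) m

theorem good_tnorm : Good tnorm where
  nonneg x := ((good_it 0).nonneg x).trans (it_le_tnorm 0 x)
  le_l1 x := ciSup_le fun m => (good_it m).le_l1 x
  add_le x y := ciSup_le fun m => ((good_it m).add_le x y).trans
    (add_le_add (it_le_tnorm m x) (it_le_tnorm m y))
  smul_le c x := ciSup_le fun m => ((good_it m).smul_le c x).trans
    (mul_le_mul_of_nonneg_left (it_le_tnorm m x) (abs_nonneg c))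

theorem tendsto_it (x : ℕ+ →₀ ℝ) : Tendsto (fun m => it m x) atTop (𝓝 (tnorm x)) :=
  tendsto_atTop_ciSup (it_mono x) (it_bdd x)

theorem isLUB_tnorm (x : ℕ+ →₀ ℝ) : IsLUB (bigSet tnorm x) (tnorm x) := by
  constructor
  · rintro r (⟨k, rfl⟩ | ⟨n, E, hE, rfl⟩)
    · exact ((isLUB_step (good_it 0) x).1 (Or.inl ⟨k, rfl⟩)).trans (it_le_tnorm 1 x)
    · have h1 : Tendsto (fun m => 1 / 2 * ∑ i, it m (x.filter (· ∈ E i))) atTop
          (𝓝 (1 / 2 * ∑ i, tnorm (x.filter (· ∈ E i)))) :=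
        (tendsto_finsetSum _ fun i _ => tendsto_it _).const_mul _
      refine le_of_tendsto' h1 fun m => ?_
      exact ((isLUB_step (good_it m) x).1 (Or.inr ⟨n, E, hE, rfl⟩)).trans (it_le_tnorm (m + 1) x)
  · intro b hb
    have hb0 : 0 ≤ b := (abs_nonneg (x 1)).trans (hb (Or.inl ⟨1, rfl⟩))
    apply ciSup_le
    intro m
    cases m with
    | zero => exact hb0
    | succ m =>
      apply (isLUB_step (good_it m) x).2
      rintro r (⟨k, rfl⟩ | ⟨n, E, hE, rfl⟩)
      · exact hb (Or.inl ⟨k, rfl⟩)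
      · refine le_trans ?_ (hb (Or.inr ⟨n, E, hE, rfl⟩))
        apply mul_le_mul_of_nonneg_left _ (by norm_num)
        exact Finset.sum_le_sum fun i _ => it_le_tnorm m _

/-- `c₀₀` with Tsirelson's norm. -/
def PreT : Type := ℕ+ →₀ ℝ

noncomputable instance : AddCommGroup PreT := inferInstanceAs (AddCommGroup (ℕ+ →₀ ℝ))
noncomputable instance : Module ℝ PreT := inferInstanceAs (Module ℝ (ℕ+ →₀ ℝ))
noncomputable instance : Norm PreT := ⟨tnorm⟩

theorem tnorm_smul (c : ℝ) (x : ℕ+ →₀ ℝ) : tnorm (c • x) = |c| * tnorm x := by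
  apply le_antisymm (good_tnorm.smul_le c x)
  rcases eq_or_ne c 0 with rfl | hc
  · rw [abs_zero, zero_mul]
    exact good_tnorm.nonneg _
  · have h : tnorm x ≤ |c⁻¹| * tnorm (c • x) := by
      have := good_tnorm.smul_le c⁻¹ (c • x)
      rwa [inv_smul_smul₀ hc] at this
    have hc' : 0 < |c| := abs_pos.2 hc
    calc |c| * tnorm x ≤ |c| * (|c⁻¹| * tnorm (c • x)) := mul_le_mul_of_nonneg_left h hc'.le
      _ = tnorm (c • x) := by rw [abs_inv]; field_simp

theorem preT_core : SeminormedSpace.Core ℝ PreT where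
  norm_nonneg := good_tnorm.nonneg
  norm_smul c x := tnorm_smul c x
  norm_triangle := good_tnorm.add_le

noncomputable instance : SeminormedAddCommGroup PreT := SeminormedAddCommGroup.ofCore preT_core

noncomputable instance : NormedSpace ℝ PreT where
  norm_smul_le c x := good_tnorm.smul_le c x

/-- The inclusion of `c₀₀` in the completion. -/
noncomputable def jT : (ℕ+ →₀ ℝ) →ₗ[ℝ] UniformSpace.Completion PreT where
  toFun x := ((show PreT from x : PreT) : UniformSpace.Completion PreT)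
  map_add' x y := UniformSpace.Completion.coe_add (α := PreT) x y
  map_smul' c x := UniformSpace.Completion.coe_smul (X := PreT) c x

theorem norm_jT (x : ℕ+ →₀ ℝ) : ‖jT x‖ = tnorm x :=
  UniformSpace.Completion.norm_coe (E := PreT) x

/-- Tsirelson space exists. -/
theorem exists_tsirelson : ∃ (X : Type) (_ : NormedAddCommGroup X) (_ : NormedSpace ℝ X),
    IsTsirelsonSpace X := by
  refine ⟨UniformSpace.Completion PreT, inferInstance, inferInstance, inferInstance, jT,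
    UniformSpace.Completion.denseRange_coe (α := PreT), ?_⟩
  intro x
  simp_rw [norm_jT]
  exact isLUB_tnorm x

end Pool.Agent.Helper60.Tsirelson
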