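import Mathlib

/-!
# Tsirelson space (Figiel–Johnson form) and the separation constant of the unit ball

The index set `ℕ = {1, 2, 3, …}` is Mathlib's `ℕ+`, and `c₀₀` is `ℕ+ →₀ ℝ`.
-/

set_option autoImplicit false

namespace Pool.Agent.Helper60.Tsirelson

/-- `n ≤ E₁ < E₂ < … < Eₙ` for finite nonempty sets `Eᵢ ⊂ ℕ = {1, 2, 3, …}` and `n ≥ 1`. -/
def Admissible (n : ℕ) (E : Fin n → Finset ℕ+) : Prop :=
  1 ≤ n ∧ (∀ i, (E i).Nonempty) ∧ (∀ i, ∀ a ∈ E i, n ≤ (a : ℕ)) ∧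
    ∀ i j, i < j → ∀ a ∈ E i, ∀ b ∈ E j, a < b

/-- `X` is Tsirelson's space `T`: a Banach space which is the completion of `c₀₀` for a norm `‖·‖`
satisfying `‖x‖ = max {‖x‖_∞, ½ sup ∑ ‖Eᵢ x‖}` for all `x ∈ c₀₀`, the supremum being over all
`n ≤ E₁ < … < Eₙ`. The identity is written as: `‖x‖` is the least upper bound of all the numbers
`|x k|` and `½ ∑ ‖Eᵢ x‖`. Here `J` is the inclusion of `c₀₀` in `X` and `Eᵢ x` is
`x.filter (· ∈ E i)`. -/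
def IsTsirelsonSpace (X : Type*) [NormedAddCommGroup X] [NormedSpace ℝ X] : Prop :=
  CompleteSpace X ∧ ∃ J : (ℕ+ →₀ ℝ) →ₗ[ℝ] X, DenseRange J ∧ ∀ x : ℕ+ →₀ ℝ,
    IsLUB (Set.range (fun k => |x k|) ∪
      {r : ℝ | ∃ (n : ℕ) (E : Fin n → Finset ℕ+), Admissible n E ∧
        r = 1 / 2 * ∑ i, ‖J (x.filter (· ∈ E i))‖}) ‖J x‖

/-- The set of all `r > 0` such that the closed unit ball of `X` contains an infinite
`r`-separated set. -/
def sepSet (X : Type*) [NormedAddCommGroup X] : Set ℝ :=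
  {r : ℝ | 0 < r ∧ ∃ S : Set X, S ⊆ Metric.closedBall 0 1 ∧ S.Infinite ∧
    ∀ x ∈ S, ∀ y ∈ S, x ≠ y → r ≤ ‖x - y‖}

/-- The separation constant `P(X)`. -/
noncomputable def sepConst (X : Type*) [NormedAddCommGroup X] : ℝ := sSup (sepSet X)

end Pool.Agent.Helper60.Tsirelson
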