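import Pool.Agent.Helper60_Tsirelson.Statement

/-!
# The separation constant of Tsirelson space is `2`
-/

set_option autoImplicit false
set_option linter.unusedSectionVars false

namespace Pool.Agent.Helper60.Tsirelson

variable {X : Type*} [NormedAddCommGroup X] [NormedSpace ℝ X]

theorem sepSet_le {r : ℝ} (h : r ∈ sepSet X) : r ≤ 2 := by
  obtain ⟨_, S, hS, hinf, hsep⟩ := h
  obtain ⟨x, hx, y, hy, hxy⟩ := hinf.nontrivial
  have h1 : ‖x‖ ≤ 1 := by simpa using hS hx
  have h2 : ‖y‖ ≤ 1 := by simpa using hS hy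
  have h3 := hsep x hx y hy hxy
  have h4 := norm_sub_le x y
  linarith

section

variable {J : (ℕ+ →₀ ℝ) →ₗ[ℝ] X}
  (hJ : ∀ x : ℕ+ →₀ ℝ, IsLUB (Set.range (fun k => |x k|) ∪
      {r : ℝ | ∃ (n : ℕ) (E : Fin n → Finset ℕ+), Admissible n E ∧
        r = 1 / 2 * ∑ i, ‖J (x.filter (· ∈ E i))‖}) ‖J x‖)

include hJ

/-- At most one of the sets `Eᵢ` contains `a`. -/
theorem sum_single_le (a : ℕ+) {n : ℕ} {E : Fin n → Finset ℕ+} (hE : Admissible n E) :
    ∑ i, ‖J ((Finsupp.single a (1 : ℝ)).filter (· ∈ E i))‖ ≤ ‖J (Finsupp.single a 1)‖ := by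
  classical
  by_cases h : ∃ i, a ∈ E i
  · obtain ⟨i, hi⟩ := h
    rw [Finset.sum_eq_single i]
    · rw [Finsupp.filter_single_of_pos _ hi]
    · intro j _ hji
      have hj : a ∉ E j := by
        intro hj
        rcases lt_or_gt_of_ne hji with h | h
        · exact lt_irrefl a (hE.2.2.2 j i h a hj a hi)
        · exact lt_irrefl a (hE.2.2.2 i j h a hi a hj)
      rw [Finsupp.filter_single_of_neg _ hj, map_zero, norm_zero]
    · simp
  · push Not at h
    rw [Finset.sum_eq_zero]
    · exact norm_nonneg _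
    · intro i _
      rw [Finsupp.filter_single_of_neg _ (h i), map_zero, norm_zero]

theorem norm_single (a : ℕ+) : ‖J (Finsupp.single a 1)‖ = 1 := by
  apply le_antisymm
  · have h1 : ‖J (Finsupp.single a 1)‖ ≤ max 1 (1 / 2 * ‖J (Finsupp.single a 1)‖) := by
      apply (hJ _).2
      rintro r (⟨k, rfl⟩ | ⟨n, E, hE, rfl⟩)
      · refine le_max_of_le_left ?_
        change |(Finsupp.single a (1 : ℝ) : ℕ+ →₀ ℝ) k| ≤ 1
        rw [Finsupp.single_apply]
        split_ifs <;> simp
      · refine le_max_of_le_right ?_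
        have := sum_single_le hJ a hE
        linarith
    rcases le_max_iff.1 h1 with h | h
    · exact h
    · have := norm_nonneg (J (Finsupp.single a 1))
      linarith
  · have := (hJ (Finsupp.single a 1)).1 (Or.inl ⟨a, rfl⟩)
    simpa using this

theorem norm_pair_le {a b : ℕ+} (hab : a ≠ b) :
    ‖J (Finsupp.single a 1 + Finsupp.single b 1)‖ ≤ 1 := by
  apply (hJ _).2
  rintro r (⟨k, rfl⟩ | ⟨n, E, hE, rfl⟩)
  · change |(Finsupp.single a (1 : ℝ) + Finsupp.single b 1 : ℕ+ →₀ ℝ) k| ≤ 1
    rw [Finsupp.add_apply, Finsupp.single_apply, Finsupp.single_apply]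
    split_ifs with h1 h2
    · exact absurd (h1.trans h2.symm) hab
    all_goals simp
  · have h1 := sum_single_le hJ a hE
    have h2 := sum_single_le hJ b hE
    rw [norm_single hJ] at h1 h2
    have h3 : ∑ i, ‖J ((Finsupp.single a (1 : ℝ) + Finsupp.single b 1).filter (· ∈ E i))‖ ≤
        ∑ i, ‖J ((Finsupp.single a (1 : ℝ)).filter (· ∈ E i))‖ +
        ∑ i, ‖J ((Finsupp.single b (1 : ℝ)).filter (· ∈ E i))‖ := by
      rw [← Finset.sum_add_distrib]
      apply Finset.sum_le_sum
      intro i _
      rw [Finsupp.filter_add, map_add]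
      exact norm_add_le _ _
    linarith

/-- Four distinct unit vectors with indices at least four. -/
theorem norm_four_ge {a b c d : ℕ+} (ha : 4 ≤ (a : ℕ)) (hab : a < b) (hbc : b < c) (hcd : c < d) :
    2 ≤ ‖J (Finsupp.single a 1 + Finsupp.single b 1) -
      J (Finsupp.single c 1 + Finsupp.single d 1)‖ := by
  classical
  rw [← map_sub]
  have hE : Admissible 4 ![{a}, {b}, {c}, {d}] := by
    refine ⟨by norm_num, ?_, ?_, ?_⟩
    · intro i
      fin_cases i <;> simp
    · have hab' : (a : ℕ) < b := hab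
      have hbc' : (b : ℕ) < c := hbc
      have hcd' : (c : ℕ) < d := hcd
      intro i x hx
      fin_cases i <;> simp at hx <;> subst hx <;> omega
    · intro i j hij x hx y hy
      fin_cases i <;> fin_cases j <;> simp at hij hx hy <;> subst hx <;> subst hy <;>
        first
        | exact hab
        | exact hbc
        | exact hcd
        | exact hab.trans hbc
        | exact hbc.trans hcd
        | exact (hab.trans hbc).trans hcd
  have h := (hJ (Finsupp.single a 1 + Finsupp.single b 1 -
    (Finsupp.single c 1 + Finsupp.single d 1))).1 (Or.inr ⟨4, _, hE, rfl⟩)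
  refine le_trans ?_ h
  rw [Fin.sum_univ_four]
  have hac : a < c := hab.trans hbc
  have hbd : b < d := hbc.trans hcd
  have had : a < d := hac.trans hcd
  have e1 : (Finsupp.single a (1 : ℝ) + Finsupp.single b 1 -
      (Finsupp.single c 1 + Finsupp.single d 1)).filter (· ∈ ({a} : Finset ℕ+)) =
      Finsupp.single a 1 := by
    ext k
    simp only [Finsupp.filter_apply, Finset.mem_singleton, Finsupp.sub_apply, Finsupp.add_apply,
      Finsupp.single_apply]
    by_cases hk : k = a
    · subst hk
      simp [hab.ne', hac.ne', had.ne']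
    · simp [hk, Ne.symm hk]
  have e2 : (Finsupp.single a (1 : ℝ) + Finsupp.single b 1 -
      (Finsupp.single c 1 + Finsupp.single d 1)).filter (· ∈ ({b} : Finset ℕ+)) =
      Finsupp.single b 1 := by
    ext k
    simp only [Finsupp.filter_apply, Finset.mem_singleton, Finsupp.sub_apply, Finsupp.add_apply,
      Finsupp.single_apply]
    by_cases hk : k = b
    · subst hk
      simp [hab.ne, hbc.ne', hbd.ne']
    · simp [hk, Ne.symm hk]
  have e3 : (Finsupp.single a (1 : ℝ) + Finsupp.single b 1 -
      (Finsupp.single c 1 + Finsupp.single d 1)).filter (· ∈ ({c} : Finset ℕ+)) =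
      - Finsupp.single c 1 := by
    ext k
    simp only [Finsupp.filter_apply, Finset.mem_singleton, Finsupp.sub_apply, Finsupp.add_apply,
      Finsupp.single_apply, Finsupp.neg_apply]
    by_cases hk : k = c
    · subst hk
      simp [hac.ne, hbc.ne, hcd.ne']
    · simp [hk, Ne.symm hk]
  have e4 : (Finsupp.single a (1 : ℝ) + Finsupp.single b 1 -
      (Finsupp.single c 1 + Finsupp.single d 1)).filter (· ∈ ({d} : Finset ℕ+)) =
      - Finsupp.single d 1 := by
    ext k
    simp only [Finsupp.filter_apply, Finset.mem_singleton, Finsupp.sub_apply, Finsupp.add_apply,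
      Finsupp.single_apply, Finsupp.neg_apply]
    by_cases hk : k = d
    · subst hk
      simp [had.ne, hbd.ne, hcd.ne]
    · simp [hk, Ne.symm hk]
  change 2 ≤ 1 / 2 * (‖J ((Finsupp.single a (1 : ℝ) + Finsupp.single b 1 -
      (Finsupp.single c 1 + Finsupp.single d 1)).filter (· ∈ ({a} : Finset ℕ+)))‖ +
    ‖J ((Finsupp.single a (1 : ℝ) + Finsupp.single b 1 -
      (Finsupp.single c 1 + Finsupp.single d 1)).filter (· ∈ ({b} : Finset ℕ+)))‖ +
    ‖J ((Finsupp.single a (1 : ℝ) + Finsupp.single b 1 -
      (Finsupp.single c 1 + Finsupp.single d 1)).filter (· ∈ ({c} : Finset ℕ+)))‖ +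
    ‖J ((Finsupp.single a (1 : ℝ) + Finsupp.single b 1 -
      (Finsupp.single c 1 + Finsupp.single d 1)).filter (· ∈ ({d} : Finset ℕ+)))‖)
  rw [e1, e2, e3, e4, map_neg, map_neg, norm_neg, norm_neg, norm_single hJ, norm_single hJ,
    norm_single hJ, norm_single hJ]
  norm_num

end

/-- The index `2 j + 4 + i`. -/
def idx (i j : ℕ) : ℕ+ := ⟨2 * j + 4 + i, by omega⟩

theorem two_mem_sepSet (h : IsTsirelsonSpace X) : (2 : ℝ) ∈ sepSet X := by
  obtain ⟨_, J, _, hJ⟩ := h
  refine ⟨by norm_num, Set.range fun j : ℕ =>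
    J (Finsupp.single (idx 0 j) 1 + Finsupp.single (idx 1 j) 1), ?_, ?_, ?_⟩
  · rintro _ ⟨j, rfl⟩
    have hne : idx 0 j ≠ idx 1 j := by
      intro h
      have : (idx 0 j : ℕ) = idx 1 j := by rw [h]
      simp [idx] at this
    simpa using norm_pair_le hJ hne
  all_goals
    have key : ∀ i j : ℕ, i < j →
        2 ≤ ‖J (Finsupp.single (idx 0 i) 1 + Finsupp.single (idx 1 i) 1) -
          J (Finsupp.single (idx 0 j) 1 + Finsupp.single (idx 1 j) 1)‖ := by
      intro i j hij
      apply norm_four_ge hJ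
      · simp [idx]
      · change (idx 0 i : ℕ) < idx 1 i
        simp [idx]
      · change (idx 1 i : ℕ) < idx 0 j
        simp [idx]
        omega
      · change (idx 0 j : ℕ) < idx 1 j
        simp [idx]
  · apply Set.infinite_range_of_injective
    intro i j hij
    by_contra hne
    rcases lt_or_gt_of_ne hne with h | h
    · have := key i j h
      simp only at hij
      rw [hij, sub_self, norm_zero] at this
      norm_num at this
    · have := key j i h
      simp only at hij
      rw [hij, sub_self, norm_zero] at this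
      norm_num at this
  · rintro _ ⟨i, rfl⟩ _ ⟨j, rfl⟩ hne
    have hij : i ≠ j := by
      rintro rfl
      exact hne rfl
    rcases lt_or_gt_of_ne hij with h | h
    · exact key i j h
    · rw [norm_sub_rev]
      exact key j i h

theorem sepConst_eq_two (h : IsTsirelsonSpace X) : sepConst X = 2 :=
  le_antisymm (csSup_le ⟨2, two_mem_sepSet h⟩ fun _ hr => sepSet_le hr)
    (le_csSup ⟨2, fun _ hr => sepSet_le hr⟩ (two_mem_sepSet h))

end Pool.Agent.Helper60.Tsirelson
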